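import Pool.Agent.W622.BK.Stm

/-! # Project BK (helper622), part ALT: forms in `D (n+2)` are skew in the first two variables -/

set_option autoImplicit false

namespace Pool.Agent.W723.BK

open Module Pool.Agent.W622.BK

universe u

theorem t_ALT : Pool.Agent.W622.BK.S_ALT.{u} := by
  intro k _ E _ _ R X n ω hR hω
  have h0 : ∀ e, cur k E (cur k E ω e) e = 0 := by
    intro e
    rw [← Module.forall_dual_apply_eq_zero_iff k]
    intro φ
    have h := hR _ (hω.2 φ) e
    exact h
  refine ⟨h0, fun e e' => ?_⟩
  have h1 := h0 (e + e')
  have h2 : cur k E (cur k E ω (e + e')) (e + e')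
      = cur k E (cur k E ω e) e + cur k E (cur k E ω e) e'
        + (cur k E (cur k E ω e') e + cur k E (cur k E ω e') e') := by
    rw [map_add (cur k E ω) e e', map_add (cur k E), LinearMap.add_apply, map_add, map_add]
  rw [h2, h0 e, h0 e', zero_add, add_zero] at h1
  exact eq_neg_of_add_eq_zero_left h1

end Pool.Agent.W723.BK
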